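import Pool.Agent.Helper57.QZ.Stmts
import Pool.Agent.Helper91.ZM.FIN

/-! Row MS of the sheet `Helper57/QZ/Stmts.lean` (mean square of `Fy`), without hypotheses. -/

set_option autoImplicit false

namespace Pool.Agent.Helper57.QZ

open MeasureTheory Set Filter Topology

theorem h91_Fy (y : ℕ) (σ t : ℝ) : Fy y (pt σ t) =
    riemannZeta ((σ : ℂ) + t * Complex.I) *
      Pool.Agent.Helper91.ZM.EP (Pool.Agent.Helper91.ZM.PY y) ((σ : ℂ) + t * Complex.I) - 1 := by
  unfold Fy pt Pool.Agent.Helper91.ZM.EP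
  congr 2
  exact Finset.prod_coe_sort (Nat.primesBelow (y + 1))
    (fun p => (1 - (p : ℂ) ^ (-((σ : ℂ) + t * Complex.I))))

theorem h91_cont (y : ℕ) (σ : ℝ) {a b : ℝ} (ha : 0 < a) (hab : a ≤ b) :
    IntervalIntegrable (fun t : ℝ => ‖Fy y (pt σ t)‖ ^ 2) volume a b := by
  refine ContinuousOn.intervalIntegrable ?_
  rw [uIcc_of_le hab]
  refine ContinuousOn.pow (ContinuousOn.norm ?_) 2
  intro t ht
  have hcl : Continuous (fun t : ℝ => (σ : ℂ) + t * Complex.I) := by fun_prop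
  have hne : (σ : ℂ) + t * Complex.I ≠ 1 := by
    intro h
    have := congrArg Complex.im h
    simp at this
    linarith [ht.1]
  have h5 : ContinuousAt (fun t : ℝ => riemannZeta ((σ : ℂ) + t * Complex.I)) t :=
    ContinuousAt.comp (f := fun t : ℝ => (σ : ℂ) + t * Complex.I)
      (differentiableAt_riemannZeta hne).continuousAt hcl.continuousAt
  have h6 : ContinuousAt (fun t : ℝ => Pool.Agent.Helper91.ZM.EP
      (Pool.Agent.Helper91.ZM.PY y) ((σ : ℂ) + t * Complex.I)) t :=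
    ContinuousAt.comp (f := fun t : ℝ => (σ : ℂ) + t * Complex.I)
      (Pool.Agent.Helper91.ZM.EP_diff _ Pool.Agent.Helper91.ZM.PY_prime _).continuousAt
      hcl.continuousAt
  have h7 : (fun t : ℝ => Fy y (pt σ t)) = fun t : ℝ =>
      riemannZeta ((σ : ℂ) + t * Complex.I) *
        Pool.Agent.Helper91.ZM.EP (Pool.Agent.Helper91.ZM.PY y) ((σ : ℂ) + t * Complex.I) - 1 :=
    funext fun t => h91_Fy y σ t
  rw [h7]
  exact ((h5.mul h6).sub continuousAt_const).continuousWithinAt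

/-- Row MS. -/
theorem st_MS : ST_MS := by
  intro ε hε κ hκ
  obtain ⟨y₀, hy₀⟩ := Pool.Agent.Helper91.ZM.msq hε.1 hε.2 (show 0 < κ / 4 by positivity)
  refine ⟨y₀, fun y hy => ?_⟩
  obtain ⟨T₁, hT₁, hm⟩ := hy₀ y hy
  refine ⟨2 * T₁, by linarith, fun T hT σ hσ => ?_⟩
  have hT2 : 2 ≤ T := by linarith
  have hm' : ∀ S : ℝ, T₁ ≤ S → ∫ t in S..2 * S, ‖Fy y (pt σ t)‖ ^ 2 ≤ κ / 4 * S := by
    intro S hS
    have h := hm S hS σ hσ.1 hσ.2
    simp only [h91_Fy]
    exact h
  have a1 := hm' (T / 2) (by linarith)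
  have a2 := hm' T (by linarith)
  have a3 := hm' (2 * T) (by linarith)
  rw [show 2 * (T / 2) = T from by ring] at a1
  rw [show 2 * (2 * T) = 4 * T from by ring] at a3
  have i1 := h91_cont y σ (show 0 < T / 2 by linarith) (show T / 2 ≤ T by linarith)
  have i2 := h91_cont y σ (show 0 < T by linarith) (show T ≤ 2 * T by linarith)
  have i3 := h91_cont y σ (show 0 < 2 * T by linarith) (show 2 * T ≤ 4 * T by linarith)
  have hsum : ∫ t in (T / 2)..(4 * T), ‖Fy y (pt σ t)‖ ^ 2 =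
      (∫ t in (T / 2)..T, ‖Fy y (pt σ t)‖ ^ 2) + (∫ t in T..(2 * T), ‖Fy y (pt σ t)‖ ^ 2) +
      ∫ t in (2 * T)..(4 * T), ‖Fy y (pt σ t)‖ ^ 2 := by
    rw [intervalIntegral.integral_add_adjacent_intervals i1 i2,
      intervalIntegral.integral_add_adjacent_intervals (i1.trans i2) i3]
  have hle : ∫ t in (T - 1)..(2 * T + 1), ‖Fy y (pt σ t)‖ ^ 2 ≤
      ∫ t in (T / 2)..(4 * T), ‖Fy y (pt σ t)‖ ^ 2 := by
    refine intervalIntegral.integral_mono_interval (by linarith) (by linarith) (by linarith)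
      (Eventually.of_forall fun t => by positivity) ?_
    exact (i1.trans i2).trans i3
  have hpos : 0 < κ * T := by positivity
  nlinarith

end Pool.Agent.Helper57.QZ
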